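import Mathlib

/-!
# Sums of four cubes: the Pell step and the two-parameter families

* `Good m`: there is a representation of `m` by four cubes for which the Pell step works.
* `Good.infinite`: then there are infinitely many representations.
* `fam`: the families `x + y = α² t`, `z + w = -β² t`.
-/

namespace Pool.Agent.FourCubes51

/-- the set of representations of `m` as a sum of four integer cubes -/
def Sol (m : ℤ) : Set (ℤ × ℤ × ℤ × ℤ) :=
  {q | q.1 ^ 3 + q.2.1 ^ 3 + q.2.2.1 ^ 3 + q.2.2.2 ^ 3 = m}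

/-- a representation of `m` from which the Pell equation produces infinitely many -/
def Good (m : ℤ) : Prop := ∃ x y z w : ℤ, x ^ 3 + y ^ 3 + z ^ 3 + w ^ 3 = m ∧
  0 < -((x + y) * (z + w)) ∧ ¬ IsSquare (-((x + y) * (z + w))) ∧ (x ≠ y ∨ z ≠ w)

theorem Good.neg {m : ℤ} (h : Good m) : Good (-m) := by
  obtain ⟨x, y, z, w, h1, h2, h3, h4⟩ := h
  refine ⟨-x, -y, -z, -w, ?_, ?_, ?_, ?_⟩
  · rw [← h1]; ring
  · have : -((-x + -y) * (-z + -w)) = -((x + y) * (z + w)) := by ring
    rw [this]; exact h2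
  · have : -((-x + -y) * (-z + -w)) = -((x + y) * (z + w)) := by ring
    rw [this]; exact h3
  · rcases h4 with h | h
    · left; intro h'; exact h (neg_injective h')
    · right; intro h'; exact h (neg_injective h')

/-- the Pell step -/
theorem Good.infinite {m : ℤ} (h : Good m) : (Sol m).Infinite := by
  obtain ⟨x, y, z, w, h1, h2, h3, h4⟩ := h
  set A : ℤ := x + y with hA
  set C : ℤ := z + w with hC
  set X : ℤ := x - y with hX
  set Z : ℤ := z - w with hZ
  set N : ℤ := -(A * C) with hN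
  have hN4 : ¬ IsSquare (4 * N) := by
    rintro ⟨r, hr⟩
    apply h3
    have h2r : 2 ∣ r := by
      have : (2 : ℤ) ∣ r * r := ⟨2 * N, by rw [← hr]; ring⟩
      exact (Int.prime_two.dvd_mul.mp this).elim id id
    obtain ⟨c, rfl⟩ := h2r
    exact ⟨c, by linarith⟩
  obtain ⟨a, ha1, ha2⟩ := Pell.Solution₁.exists_pos_of_not_isSquare (by linarith : 0 < 4 * N) hN4
  -- nondegeneracy
  have hF : A * X ^ 2 + C * Z ^ 2 ≠ 0 := by
    intro h0
    have hsq : N * Z ^ 2 = (A * X) ^ 2 := by rw [hN]; linear_combination (-A) * h0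
    have hAC : A ≠ 0 := by
      intro h'; rw [hN, h'] at h2; simp at h2
    rcases eq_or_ne Z 0 with hz | hz
    · rw [hz] at hsq
      have : A * X = 0 := by
        have : (A * X) ^ 2 = 0 := by rw [← hsq]; ring
        exact pow_eq_zero_iff (two_ne_zero) |>.mp this
      rcases mul_eq_zero.mp this with h | h
      · exact hAC h
      · rcases h4 with h' | h'
        · exact h' (by linarith)
        · exact h' (by linarith)
    · apply h3
      have hd : Z ∣ A * X := by
        have : Z ^ 2 ∣ (A * X) ^ 2 := ⟨N, by rw [← hsq]; ring⟩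
        exact (Int.pow_dvd_pow_iff two_ne_zero).mp this
      obtain ⟨c, hc⟩ := hd
      refine ⟨c, ?_⟩
      have : N * Z ^ 2 = (c * c) * Z ^ 2 := by rw [hsq, hc]; ring
      exact mul_right_cancel₀ (pow_ne_zero 2 hz) this
  -- powers
  have hxpos : ∀ n : ℕ, 0 < (a ^ n).x := fun n => Pell.Solution₁.x_pow_pos (by linarith) n
  have hynn : ∀ n : ℕ, 0 ≤ (a ^ n).y := by
    intro n
    cases n with
    | zero => simp
    | succ n => exact (Pell.Solution₁.y_pow_succ_pos (by linarith) ha2 n).le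
  have hmono : StrictMono fun n : ℕ => (a ^ n).x := by
    apply strictMono_nat_of_lt_succ
    intro n
    rw [pow_succ, Pell.Solution₁.x_mul]
    have e1 := hxpos n
    have e2 := hynn n
    have e3 : 0 ≤ 4 * N * ((a ^ n).y * a.y) := by positivity
    nlinarith
  -- the new solutions
  have hodd : ∀ n : ℕ, ∃ c : ℤ, (a ^ n).x = 2 * c + 1 := by
    intro n
    have hp := (a ^ n).prop
    rcases Int.even_or_odd ((a ^ n).x) with h | h
    · exfalso
      obtain ⟨c, hc⟩ := h
      rw [hc] at hp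
      have : 4 * (c ^ 2 - N * (a ^ n).y ^ 2) = 1 := by linarith
      omega
    · exact h
  choose c hc using hodd
  set f : ℕ → ℤ × ℤ × ℤ × ℤ := fun n =>
    (x + c n * X - C * (a ^ n).y * Z, y - c n * X + C * (a ^ n).y * Z,
      z + c n * Z + A * (a ^ n).y * X, w - c n * Z - A * (a ^ n).y * X) with hf
  refine Set.infinite_of_injective_forall_mem (f := f) ?_ ?_
  · intro n n' hnn
    simp only [hf, Prod.mk.injEq] at hnn
    obtain ⟨e1, e2, e3, e4⟩ := hnn
    have k1 : (c n - c n') * X = C * ((a ^ n).y - (a ^ n').y) * Z := by linarith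
    have k2 : (c n - c n') * Z = -(A * ((a ^ n).y - (a ^ n').y) * X) := by linarith
    have k3 : (c n - c n') * (A * X ^ 2 + C * Z ^ 2) = 0 := by
      linear_combination (A * X) * k1 + (C * Z) * k2
    have k4 : c n = c n' := by
      rcases mul_eq_zero.mp k3 with h | h
      · linarith
      · exact absurd h hF
    apply hmono.injective
    show (a ^ n).x = (a ^ n').x
    rw [hc n, hc n', k4]
  · intro n
    have hp := (a ^ n).prop
    rw [hc n] at hp
    have hp' : c n ^ 2 + c n = N * (a ^ n).y ^ 2 := by linarith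
    show _ + _ + _ + _ = m
    rw [← h1]
    -- 4 * (sum of cubes) in terms of A, C, X, Z
    have id1 : 4 * ((x + c n * X - C * (a ^ n).y * Z) ^ 3 + (y - c n * X + C * (a ^ n).y * Z) ^ 3 +
        (z + c n * Z + A * (a ^ n).y * X) ^ 3 + (w - c n * Z - A * (a ^ n).y * X) ^ 3) =
        A ^ 3 + 3 * A * ((2 * c n + 1) * X - 2 * C * (a ^ n).y * Z) ^ 2 +
        (C ^ 3 + 3 * C * ((2 * c n + 1) * Z + 2 * A * (a ^ n).y * X) ^ 2) := by
      rw [hA, hC, hX, hZ]; ring
    have id2 : 4 * (x ^ 3 + y ^ 3 + z ^ 3 + w ^ 3) =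
        A ^ 3 + 3 * A * X ^ 2 + (C ^ 3 + 3 * C * Z ^ 2) := by
      rw [hA, hC, hX, hZ]; ring
    have id3 : 4 * ((x + c n * X - C * (a ^ n).y * Z) ^ 3 + (y - c n * X + C * (a ^ n).y * Z) ^ 3 +
        (z + c n * Z + A * (a ^ n).y * X) ^ 3 + (w - c n * Z - A * (a ^ n).y * X) ^ 3) =
        4 * (x ^ 3 + y ^ 3 + z ^ 3 + w ^ 3) := by
      rw [id1, id2]
      have : N = -(A * C) := hN
      linear_combination (12 * (A * X ^ 2 + C * Z ^ 2)) * hp' +
        (12 * (a ^ n).y ^ 2 * (A * X ^ 2 + C * Z ^ 2)) * this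
    linarith

theorem good_aux {N q s : ℤ} (h : 4 * N = q ^ 2 - s ^ 2) (hs : s ≠ 0) (hq : s ^ 2 + 1 < 2 * |q|) :
    0 < N ∧ ¬ IsSquare N := by
  have hs2 : 0 < s ^ 2 := by positivity
  have hq2 : |q| ^ 2 = q ^ 2 := sq_abs q
  have hq0 : 0 ≤ |q| := abs_nonneg q
  constructor
  · nlinarith
  · rintro ⟨r, hr⟩
    have hr2 : |r| ^ 2 = r ^ 2 := sq_abs r
    have hr0 : 0 ≤ |r| := abs_nonneg r
    have h1 : (|q| - 2 * |r|) * (|q| + 2 * |r|) = s ^ 2 := by
      have : (|q| - 2 * |r|) * (|q| + 2 * |r|) = |q| ^ 2 - 4 * |r| ^ 2 := by ring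
      rw [this, hq2, hr2]; nlinarith
    have h2 : 0 < |q| + 2 * |r| := by
      rcases (by positivity : 0 ≤ |q| + 2 * |r|).eq_or_lt with h | h
      · rw [← h] at h1; simp at h1; exact absurd h1.symm (pow_ne_zero 2 hs)
      · exact h
    have h3 : 0 < |q| - 2 * |r| := by
      by_contra hcon
      have : (|q| - 2 * |r|) * (|q| + 2 * |r|) ≤ 0 :=
        mul_nonpos_of_nonpos_of_nonneg (by linarith) h2.le
      linarith
    have h4 : |q| + 2 * |r| ≤ s ^ 2 := by nlinarith
    have h5 : (|q| - 2 * |r| - 1) * (|q| + 2 * |r| - 1) ≥ 0 :=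
      mul_nonneg (by linarith) (by linarith)
    nlinarith

/-- the families with `x + y = α² t`, `z + w = -β² t` -/
theorem fam {m t k al be u X Z : ℤ} (hu : u ≠ 0) (ht : t ≠ 0) (hal : al ≠ 0) (hbe : be ≠ 0)
    (hkt : k * t = 4 * m)
    (hX : 6 * u * al * X = 3 * u ^ 2 + (k - (al ^ 6 - be ^ 6) * t ^ 2))
    (hZ : 6 * u * be * Z = (k - (al ^ 6 - be ^ 6) * t ^ 2) - 3 * u ^ 2)
    (pX : (al ^ 2 * t - X) % 2 = 0) (pZ : (be ^ 2 * t - Z) % 2 = 0) (hs : al ^ 2 ≠ be ^ 2)
    (hbig : ((al ^ 2 - be ^ 2) * t) ^ 2 + 1 < 2 * |X| ∨ ((al ^ 2 - be ^ 2) * t) ^ 2 + 1 < 2 * |Z|) :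
    Good m := by
  obtain ⟨x, hx⟩ : ∃ x, al ^ 2 * t + X = 2 * x := by
    refine ⟨(al ^ 2 * t + X) / 2, ?_⟩
    generalize al ^ 2 * t = A at *
    omega
  obtain ⟨z, hz⟩ : ∃ z, -(be ^ 2 * t) + Z = 2 * z := by
    refine ⟨(-(be ^ 2 * t) + Z) / 2, ?_⟩
    generalize be ^ 2 * t = A at *
    omega
  obtain ⟨y, hy⟩ : ∃ y, y = al ^ 2 * t - x := ⟨_, rfl⟩
  obtain ⟨w, hw⟩ : ∃ w, w = -(be ^ 2 * t) - z := ⟨_, rfl⟩
  have hK : 3 * (al ^ 2 * X ^ 2 - be ^ 2 * Z ^ 2) = k - (al ^ 6 - be ^ 6) * t ^ 2 := by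
    have h36 : (12 * u ^ 2 : ℤ) ≠ 0 := by positivity
    apply mul_left_cancel₀ h36
    have e1 : (6 * u * al * X) ^ 2 = (3 * u ^ 2 + (k - (al ^ 6 - be ^ 6) * t ^ 2)) ^ 2 := by rw [hX]
    have e2 : (6 * u * be * Z) ^ 2 = ((k - (al ^ 6 - be ^ 6) * t ^ 2) - 3 * u ^ 2) ^ 2 := by rw [hZ]
    linear_combination e1 - e2
  have hsum : x ^ 3 + y ^ 3 + z ^ 3 + w ^ 3 = m := by
    have h4 : (4 : ℤ) ≠ 0 := by norm_num
    apply mul_left_cancel₀ h4
    have hXx : X = 2 * x - al ^ 2 * t := by linarith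
    have hZz : Z = 2 * z + be ^ 2 * t := by linarith
    rw [← hkt, hy, hw]
    rw [hXx, hZz] at hK
    linear_combination t * hK
  have hxy : x - y = X := by linarith
  have hzw : z - w = Z := by linarith
  have hxy' : x + y = al ^ 2 * t := by linarith
  have hzw' : z + w = -(be ^ 2 * t) := by linarith
  have hs0 : (al ^ 2 - be ^ 2) * t ≠ 0 := mul_ne_zero (sub_ne_zero.mpr hs) ht
  have hAC : (x + y) * (z + w) < 0 := by
    rw [hxy', hzw']
    have : 0 < al ^ 2 * be ^ 2 * t ^ 2 := by positivity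
    linarith
  rcases le_total 0 (X * Z) with hXZ | hXZ
  · -- pairing (x, z), (y, w)
    have hq : ((al ^ 2 - be ^ 2) * t) ^ 2 + 1 < 2 * |X + Z| := by
      have : |X + Z| = |X| + |Z| := (abs_add_eq_add_abs_iff X Z).mpr (by
        rcases lt_trichotomy X 0 with h | h | h
        · right; exact ⟨h.le, by nlinarith⟩
        · subst h; rcases le_total 0 Z with h' | h'
          · left; exact ⟨le_rfl, h'⟩
          · right; exact ⟨le_rfl, h'⟩
        · left; exact ⟨h.le, by nlinarith⟩)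
      rw [this]
      have := abs_nonneg X
      have := abs_nonneg Z
      rcases hbig with h | h <;> linarith
    have h4N : 4 * (-((x + z) * (y + w))) = (X + Z) ^ 2 - ((al ^ 2 - be ^ 2) * t) ^ 2 := by
      have e : (al ^ 2 - be ^ 2) * t = x + y + (z + w) := by rw [hxy', hzw']; ring
      rw [e, ← hxy, ← hzw]; ring
    obtain ⟨g1, g2⟩ := good_aux h4N hs0 hq
    refine ⟨x, z, y, w, by rw [← hsum]; ring, g1, g2, ?_⟩
    by_contra hcon
    push Not at hcon
    rw [hcon.1, hcon.2] at hAC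
    have : 0 ≤ (z + w) * (z + w) := mul_self_nonneg _
    linarith
  · have hq : ((al ^ 2 - be ^ 2) * t) ^ 2 + 1 < 2 * |X - Z| := by
      have : |X - Z| = |X| + |Z| := by
        rw [← abs_neg Z, sub_eq_add_neg]
        exact (abs_add_eq_add_abs_iff X (-Z)).mpr (by
        rcases lt_trichotomy X 0 with h | h | h
        · right; exact ⟨h.le, by nlinarith⟩
        · subst h; rcases le_total 0 (-Z) with h' | h'
          · left; exact ⟨le_rfl, h'⟩
          · right; exact ⟨le_rfl, h'⟩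
        · left; exact ⟨h.le, by nlinarith⟩)
      rw [this]
      have := abs_nonneg X
      have := abs_nonneg Z
      rcases hbig with h | h <;> linarith
    have h4N : 4 * (-((x + w) * (y + z))) = (X - Z) ^ 2 - ((al ^ 2 - be ^ 2) * t) ^ 2 := by
      have e : (al ^ 2 - be ^ 2) * t = x + y + (z + w) := by rw [hxy', hzw']; ring
      rw [e, ← hxy, ← hzw]; ring
    obtain ⟨g1, g2⟩ := good_aux h4N hs0 hq
    refine ⟨x, w, y, z, by rw [← hsum]; ring, g1, g2, ?_⟩
    by_contra hcon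
    push Not at hcon
    rw [hcon.1, hcon.2] at hAC
    have : 0 ≤ (z + w) * (z + w) := mul_self_nonneg _
    nlinarith

end Pool.Agent.FourCubes51
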