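import Pool.Agent.FourCubes51.Fam

/-!
# The eleven families covering all residue classes except `±4 mod 9`
-/

namespace Pool.Agent.FourCubes51

/-- `m ≡ 0 mod 6`: `t = 1`, `β = 1`, `α = 4 m + 13` -/
theorem good_0_6 {m : ℤ} (h : m % 6 = 0) : Good m := by
  obtain ⟨al, hal⟩ : ∃ al : ℤ, al = 4 * m + 13 := ⟨_, rfl⟩
  have h24 : al % 24 = 13 := by omega
  have h2 : al ^ 2 % 24 = 1 := pow_emod 2 h24 (by norm_num)
  have h5 : al ^ 5 % 24 = 13 := pow_emod 5 h24 (by norm_num)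
  have h6 : al ^ 6 % 24 = 1 := pow_emod 6 h24 (by norm_num)
  obtain ⟨X, hX⟩ : ∃ X, 12 * X = 1 - al ^ 5 := ⟨(1 - al ^ 5) / 12, by omega⟩
  obtain ⟨Z, hZ⟩ : ∃ Z, 12 * Z = al - al ^ 6 - 24 := ⟨(al - al ^ 6 - 24) / 12, by omega⟩
  have hb : 11 ≤ |al| := le_abs.mpr (by omega)
  have hb2 : 121 ≤ al ^ 2 := by
    rw [← sq_abs]; nlinarith
  refine fam_alpha (t := 1) (k := 4 * m) (al := al) (be := 1) (u := 2) (d := 1) (X := X) (Z := Z)
    (by norm_num) (by norm_num) (by norm_num) (by ring) (by rw [hal]; ring) ?_ ?_ (by omega) (by omega)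
    (by linarith) (by norm_num; linarith) (by norm_num; linarith)
  · linear_combination hX
  · linear_combination hZ + hal

/-- `m ≡ 3 mod 6`: `t = 1`, `β = 1`, `α = m + 1` -/
theorem good_3_6 {m : ℤ} (h : m % 6 = 3) : Good m := by
  rcases eq_or_ne m (-3) with rfl | hm
  · exact fam (t := 1) (k := -12) (al := -2) (be := 1) (u := 1) (X := 6) (Z := -13) (by norm_num)
      (by norm_num) (by norm_num) (by norm_num) (by norm_num) (by norm_num) (by norm_num)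
      (by norm_num) (by norm_num) (by norm_num) (by norm_num)
  obtain ⟨al, hal⟩ : ∃ al : ℤ, al = m + 1 := ⟨_, rfl⟩
  have h6 : al % 6 = 4 := by omega
  have h2 : al % 2 = 0 := by omega
  have h3 : al % 3 = 1 := by omega
  have p5 : al ^ 5 % 3 = 1 := pow_emod 5 h3 (by norm_num)
  have p6 : al ^ 6 % 3 = 1 := pow_emod 6 h3 (by norm_num)
  obtain ⟨c, hc⟩ : ∃ c, al = 2 * c := ⟨al / 2, by omega⟩
  have q2 : al ^ 2 = 2 * (2 * c ^ 2) := by rw [hc]; ring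
  have q5 : al ^ 5 = 32 * c ^ 5 := by rw [hc]; ring
  have q6 : al ^ 6 = 64 * c ^ 6 := by rw [hc]; ring
  obtain ⟨X, hX⟩ : ∃ X, 6 * X = 4 - al ^ 5 := ⟨(4 - al ^ 5) / 6, by omega⟩
  obtain ⟨Z, hZ⟩ : ∃ Z, 6 * Z = 4 * al - 6 - al ^ 6 := ⟨(4 * al - 6 - al ^ 6) / 6, by omega⟩
  have hb : 4 ≤ |al| := le_abs.mpr (by omega)
  have hb2 : 16 ≤ al ^ 2 := by
    rw [← sq_abs]; nlinarith
  refine fam_alpha (t := 1) (k := 4 * m) (al := al) (be := 1) (u := 1) (d := 4) (X := X) (Z := Z)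
    (by norm_num) (by norm_num) (by norm_num) (by ring) (by rw [hal]; ring) ?_ ?_ (by omega) (by omega)
    (by linarith) (by norm_num; linarith) (by norm_num; linarith)
  · linear_combination hX
  · linear_combination hZ + 4 * hal

/-- `m ≡ 8 mod 18`: `t = 1`, `α = 3`, `β = 741 - 4 m` -/
theorem good_8_18 {m : ℤ} (h : m % 18 = 8) : Good m := by
  obtain ⟨be, hbe⟩ : ∃ be : ℤ, be = 741 - 4 * m := ⟨_, rfl⟩
  have h72 : be % 72 = 61 := by omega
  have h24 : be % 24 = 13 := by omega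
  have h2 : be ^ 2 % 24 = 1 := pow_emod 2 h24 (by norm_num)
  have h5 : be ^ 5 % 24 = 13 := pow_emod 5 h24 (by norm_num)
  have h6 : be ^ 6 % 72 = 1 := pow_emod 6 h72 (by norm_num)
  obtain ⟨Z, hZ⟩ : ∃ Z, 12 * Z = be ^ 5 - 1 := ⟨(be ^ 5 - 1) / 12, by omega⟩
  obtain ⟨X, hX⟩ : ∃ X, 36 * X = be ^ 6 + 4 * m - 717 := ⟨(be ^ 6 + 4 * m - 717) / 36, by omega⟩
  have hb : 11 ≤ |be| := le_abs.mpr (by omega)
  have hb2 : 121 ≤ be ^ 2 := by
    rw [← sq_abs]; nlinarith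
  refine fam_beta (t := 1) (k := 4 * m) (al := 3) (be := be) (u := 2) (d := 1) (X := X) (Z := Z)
    (by norm_num) (by norm_num) (by norm_num) (by ring) (by rw [hbe]; ring) ?_ ?_ (by omega) (by omega)
    (by linarith) (by norm_num; linarith) (by norm_num; linarith)
  · linear_combination hX
  · linear_combination hZ

/-- `m ≡ 17 mod 18`: `t = 1`, `α = 3`, `β = 183 - m` -/
theorem good_17_18 {m : ℤ} (h : m % 18 = 17) : Good m := by
  obtain ⟨be, hbe⟩ : ∃ be : ℤ, be = 183 - m := ⟨_, rfl⟩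
  have h18 : be % 18 = 4 := by omega
  have h9 : be % 9 = 4 := by omega
  have p5 : be ^ 5 % 9 = 7 := pow_emod 5 h9 (by norm_num)
  have p6 : be ^ 6 % 9 = 1 := pow_emod 6 h9 (by norm_num)
  obtain ⟨c, hc⟩ : ∃ c, be = 2 * c := ⟨be / 2, by omega⟩
  have q2 : be ^ 2 = 2 * (2 * c ^ 2) := by rw [hc]; ring
  have q5 : be ^ 5 = 32 * c ^ 5 := by rw [hc]; ring
  have q6 : be ^ 6 = 64 * c ^ 6 := by rw [hc]; ring
  obtain ⟨Z, hZ⟩ : ∃ Z, 6 * Z = be ^ 5 - 4 := ⟨(be ^ 5 - 4) / 6, by omega⟩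
  obtain ⟨X, hX⟩ : ∃ X, 18 * X = be ^ 6 + 4 * m - 726 := ⟨(be ^ 6 + 4 * m - 726) / 18, by omega⟩
  have hb : 4 ≤ |be| := le_abs.mpr (by omega)
  have hb2 : 16 ≤ be ^ 2 := by
    rw [← sq_abs]; nlinarith
  refine fam_beta (t := 1) (k := 4 * m) (al := 3) (be := be) (u := 1) (d := 4) (X := X) (Z := Z)
    (by norm_num) (by norm_num) (by norm_num) (by ring) (by rw [hbe]; ring) ?_ ?_ (by omega) (by omega)
    (by linarith) (by norm_num; linarith) (by norm_num; linarith)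
  · linear_combination hX
  · linear_combination hZ

/-- `m ≡ 20 mod 54`: `t = 1`, `α = 3`, `β = 837 - 4 m` -/
theorem good_20_54 {m : ℤ} (h : m % 54 = 20) : Good m := by
  obtain ⟨be, hbe⟩ : ∃ be : ℤ, be = 837 - 4 * m := ⟨_, rfl⟩
  have h216 : be % 216 = 109 := by omega
  have h2 : be ^ 2 % 216 = 1 := pow_emod 2 h216 (by norm_num)
  have h5 : be ^ 5 % 216 = 109 := pow_emod 5 h216 (by norm_num)
  have h6 : be ^ 6 % 216 = 1 := pow_emod 6 h216 (by norm_num)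
  obtain ⟨Z, hZ⟩ : ∃ Z, 36 * Z = be ^ 5 - 1 := ⟨(be ^ 5 - 1) / 36, by omega⟩
  obtain ⟨X, hX⟩ : ∃ X, 108 * X = be ^ 6 + 4 * m - 621 := ⟨(be ^ 6 + 4 * m - 621) / 108, by omega⟩
  have hb : 107 ≤ |be| := le_abs.mpr (by omega)
  have hb2 : 121 ≤ be ^ 2 := by
    rw [← sq_abs]; nlinarith
  refine fam_beta (t := 1) (k := 4 * m) (al := 3) (be := be) (u := 6) (d := 1) (X := X) (Z := Z)
    (by norm_num) (by norm_num) (by norm_num) (by ring) (by rw [hbe]; ring) ?_ ?_ (by omega) (by omega)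
    (by linarith) (by norm_num; linarith) (by norm_num; linarith)
  · linear_combination hX
  · linear_combination hZ

/-- `m ≡ 47 mod 54`: `t = 1`, `α = 6`, `β = 46683 - 4 m` -/
theorem good_47_54 {m : ℤ} (h : m % 54 = 47) : Good m := by
  obtain ⟨be, hbe⟩ : ∃ be : ℤ, be = 46683 - 4 * m := ⟨_, rfl⟩
  have h216 : be % 216 = 55 := by omega
  have h2 : be ^ 2 % 216 = 1 := pow_emod 2 h216 (by norm_num)
  have h5 : be ^ 5 % 216 = 55 := pow_emod 5 h216 (by norm_num)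
  have h6 : be ^ 6 % 216 = 1 := pow_emod 6 h216 (by norm_num)
  obtain ⟨Z, hZ⟩ : ∃ Z, 18 * Z = be ^ 5 - 1 := ⟨(be ^ 5 - 1) / 18, by omega⟩
  obtain ⟨X, hX⟩ : ∃ X, 108 * X = be ^ 6 + 4 * m - 46629 := ⟨(be ^ 6 + 4 * m - 46629) / 108, by omega⟩
  have hb : 55 ≤ |be| := le_abs.mpr (by omega)
  have hb2 : 121 ≤ be ^ 2 := by
    rw [← sq_abs]; nlinarith
  refine fam_beta (t := 1) (k := 4 * m) (al := 6) (be := be) (u := 3) (d := 1) (X := X) (Z := Z)
    (by norm_num) (by norm_num) (by norm_num) (by ring) (by rw [hbe]; ring) ?_ ?_ (by omega) (by omega)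
    (by linarith) (by norm_num; linarith) (by norm_num; linarith)
  · linear_combination hX
  · linear_combination hZ

/-- `m ≡ 11 mod 54`: `t = 1`, `α = 3`, `β = 189 - m` -/
theorem good_11_54 {m : ℤ} (h : m % 54 = 11) : Good m := by
  obtain ⟨be, hbe⟩ : ∃ be : ℤ, be = 189 - m := ⟨_, rfl⟩
  have h54 : be % 54 = 16 := by omega
  have h27 : be % 27 = 16 := by omega
  have p5 : be ^ 5 % 27 = 4 := pow_emod 5 h27 (by norm_num)
  have p6 : be ^ 6 % 27 = 10 := pow_emod 6 h27 (by norm_num)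
  obtain ⟨c, hc⟩ : ∃ c, be = 2 * c := ⟨be / 2, by omega⟩
  have q2 : be ^ 2 = 2 * (2 * c ^ 2) := by rw [hc]; ring
  have q5 : be ^ 5 = 32 * c ^ 5 := by rw [hc]; ring
  have q6 : be ^ 6 = 64 * c ^ 6 := by rw [hc]; ring
  obtain ⟨Z, hZ⟩ : ∃ Z, 18 * Z = be ^ 5 - 4 := ⟨(be ^ 5 - 4) / 18, by omega⟩
  obtain ⟨X, hX⟩ : ∃ X, 54 * X = be ^ 6 + 4 * m - 702 := ⟨(be ^ 6 + 4 * m - 702) / 54, by omega⟩
  have hb : 16 ≤ |be| := le_abs.mpr (by omega)
  have hb2 : 121 ≤ be ^ 2 := by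
    rw [← sq_abs]; nlinarith
  refine fam_beta (t := 1) (k := 4 * m) (al := 3) (be := be) (u := 3) (d := 4) (X := X) (Z := Z)
    (by norm_num) (by norm_num) (by norm_num) (by ring) (by rw [hbe]; ring) ?_ ?_ (by omega) (by omega)
    (by linarith) (by norm_num; linarith) (by norm_num; linarith)
  · linear_combination hX
  · linear_combination hZ

end Pool.Agent.FourCubes51
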