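import Pool.Agent.FourCubes51.Fam

/-!
# The families for `m ≡ 2 mod 27` and for `m ≡ 38 mod 54`
-/

namespace Pool.Agent.FourCubes51

theorem mul_emod {a b n r s q : ℤ} (ha : a % n = r) (hb : b % n = s) (hq : r * s % n = q) :
    a * b % n = q := by
  rw [Int.mul_emod, ha, hb, hq]

/-- `m ≡ 29 mod 54`: `t = -m`, `α = 3`, `4 β = 729 m² + 31` -/
theorem good_29_54 {m : ℤ} (h : m % 54 = 29) : Good m := by
  have h4 : m ^ 2 % 8 = 1 := by
    have : m % 8 = 1 ∨ m % 8 = 3 ∨ m % 8 = 5 ∨ m % 8 = 7 := by omega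
    rcases this with h | h | h | h
    · exact pow_emod 2 h (by norm_num)
    · exact pow_emod 2 h (by norm_num)
    · exact pow_emod 2 h (by norm_num)
    · exact pow_emod 2 h (by norm_num)
  have h27 : m % 27 = 2 := by omega
  have m27 : m ^ 2 % 27 = 4 := pow_emod 2 h27 (by norm_num)
  obtain ⟨be, hbe⟩ : ∃ be : ℤ, be * 4 = 729 * m ^ 2 + 31 := ⟨(729 * m ^ 2 + 31) / 4, by omega⟩
  have hbe2 : be % 2 = 0 := by omega
  have b27 : be % 27 = 1 := by omega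
  obtain ⟨c, hc⟩ : ∃ c, be = 2 * c := ⟨be / 2, by omega⟩
  have p5 : be ^ 5 % 27 = 1 := pow_emod 5 b27 (by norm_num)
  have p6 : be ^ 6 % 27 = 1 := pow_emod 6 b27 (by norm_num)
  have p5m : be ^ 5 * m ^ 2 % 27 = 4 := mul_emod p5 m27 (by norm_num)
  have p6m : be ^ 6 * m ^ 2 % 27 = 4 := mul_emod p6 m27 (by norm_num)
  have q5 : be ^ 5 * m ^ 2 = 32 * (c ^ 5 * m ^ 2) := by rw [hc]; ring
  have q6 : be ^ 6 * m ^ 2 = 64 * (c ^ 6 * m ^ 2) := by rw [hc]; ring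
  obtain ⟨Z, hZ⟩ : ∃ Z, 18 * Z = be ^ 5 * m ^ 2 - 4 := ⟨(be ^ 5 * m ^ 2 - 4) / 18, by omega⟩
  obtain ⟨X, hX⟩ : ∃ X, 54 * X = 23 - 729 * m ^ 2 + be ^ 6 * m ^ 2 :=
    ⟨(23 - 729 * m ^ 2 + be ^ 6 * m ^ 2) / 54, by omega⟩
  have hm0 : m ≠ 0 := by omega
  have hm1 : 25 ≤ |m| := le_abs.mpr (by omega)
  have hm2 : 625 ≤ m ^ 2 := by rw [← sq_abs]; nlinarith
  have hb : 100 ≤ be := by linarith
  have hb' : 100 ≤ |be| := le_abs.mpr (Or.inl hb)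
  have hb2 : 10000 ≤ be ^ 2 := by nlinarith
  have eZ : be ^ 2 * (-m) = 2 * (2 * c ^ 2 * (-m)) := by rw [hc]; ring
  refine fam_beta (t := -m) (k := -4) (al := 3) (be := be) (u := 3) (d := 4) (X := X) (Z := Z)
    (by norm_num) (by simpa using hm0) (by norm_num) (by ring) (by linear_combination hbe) ?_ ?_
    (by omega) (by omega) (by linarith) (by norm_num; linarith) (by norm_num; linarith)
  · linear_combination hX
  · linear_combination hZ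

/-- `m ≡ 2 mod 108`: `t = -m`, `α = 3`, `4 β = 729 m² + 112` -/
theorem good_2_108 {m : ℤ} (h : m % 108 = 2) : Good m := by
  obtain ⟨n, hn⟩ : ∃ n, m = 2 * n := ⟨m / 2, by omega⟩
  have n54 : n % 54 = 1 := by omega
  have nn54 : n ^ 2 % 54 = 1 := pow_emod 2 n54 (by norm_num)
  obtain ⟨be, hbe⟩ : ∃ be : ℤ, be = 729 * n ^ 2 + 28 := ⟨_, rfl⟩
  have b54 : be % 54 = 1 := by omega
  have p5 : be ^ 5 % 54 = 1 := pow_emod 5 b54 (by norm_num)
  have p6 : be ^ 6 % 54 = 1 := pow_emod 6 b54 (by norm_num)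
  have p5m : be ^ 5 * n ^ 2 % 54 = 1 := mul_emod p5 nn54 (by norm_num)
  have p6m : be ^ 6 * n ^ 2 % 54 = 1 := mul_emod p6 nn54 (by norm_num)
  have q5 : be ^ 5 * m ^ 2 = 4 * (be ^ 5 * n ^ 2) := by rw [hn]; ring
  have q6 : be ^ 6 * m ^ 2 = 4 * (be ^ 6 * n ^ 2) := by rw [hn]; ring
  have qm : m ^ 2 = 4 * n ^ 2 := by rw [hn]; ring
  obtain ⟨Z, hZ⟩ : ∃ Z, 36 * Z = be ^ 5 * m ^ 2 - 4 := ⟨(be ^ 5 * m ^ 2 - 4) / 36, by omega⟩
  obtain ⟨X, hX⟩ : ∃ X, 108 * X = 104 - 729 * m ^ 2 + be ^ 6 * m ^ 2 :=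
    ⟨(104 - 729 * m ^ 2 + be ^ 6 * m ^ 2) / 108, by omega⟩
  have hm0 : m ≠ 0 := by omega
  have hn2 : 1 ≤ n ^ 2 := by
    have : n ≠ 0 := by omega
    have : 0 < n ^ 2 := by positivity
    linarith
  have hb : 100 ≤ be := by linarith
  have hb' : 100 ≤ |be| := le_abs.mpr (Or.inl hb)
  have hb2 : 10000 ≤ be ^ 2 := by nlinarith
  have eZ : be ^ 2 * (-m) = 2 * (be ^ 2 * (-n)) := by rw [hn]; ring
  refine fam_beta (t := -m) (k := -4) (al := 3) (be := be) (u := 6) (d := 4) (X := X) (Z := Z)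
    (by norm_num) (by simpa using hm0) (by norm_num) (by ring)
    (by rw [hbe]; linear_combination (-729) * qm) ?_ ?_
    (by omega) (by omega) (by linarith) (by norm_num; linarith) (by norm_num; linarith)
  · linear_combination hX
  · linear_combination hZ

/-- `m ≡ 56 mod 108`: `t = -m`, `β = 1`, `72 α = m² + 104` -/
theorem good_56_108 {m : ℤ} (h : m % 108 = 56) : Good m := by
  obtain ⟨n, hn⟩ : ∃ n, m = 4 * n := ⟨m / 4, by omega⟩
  have n27 : n % 27 = 14 := by omega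
  have nn27 : n ^ 2 % 27 = 7 := pow_emod 2 n27 (by norm_num)
  obtain ⟨c, hc⟩ : ∃ c : ℤ, c * 27 = 2 * n ^ 2 + 13 := ⟨(2 * n ^ 2 + 13) / 27, by omega⟩
  have qm : m ^ 2 = 16 * n ^ 2 := by rw [hn]; ring
  have q5 : (3 * c) ^ 5 * m ^ 2 = 72 * (54 * (c ^ 5 * n ^ 2)) := by rw [hn]; ring
  have q6 : (3 * c) ^ 6 * m ^ 2 = 72 * (162 * (c ^ 6 * n ^ 2)) := by rw [hn]; ring
  obtain ⟨X, hX⟩ : ∃ X, 36 * X = 72 - (3 * c) ^ 5 * m ^ 2 := ⟨(72 - (3 * c) ^ 5 * m ^ 2) / 36, by omega⟩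
  obtain ⟨Z, hZ⟩ : ∃ Z, 36 * Z = -112 + m ^ 2 - (3 * c) ^ 6 * m ^ 2 :=
    ⟨(-112 + m ^ 2 - (3 * c) ^ 6 * m ^ 2) / 36, by omega⟩
  have hm0 : m ≠ 0 := by omega
  have hn1 : 13 ≤ |n| := le_abs.mpr (by omega)
  have hn2 : 169 ≤ n ^ 2 := by rw [← sq_abs]; nlinarith
  have hb : 39 ≤ 3 * c := by omega
  have hb' : 39 ≤ |3 * c| := le_abs.mpr (Or.inl hb)
  have hb2 : 1521 ≤ (3 * c) ^ 2 := by nlinarith
  have eX : (3 * c) ^ 2 * (-m) = 2 * ((3 * c) ^ 2 * (-2 * n)) := by rw [hn]; ring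
  refine fam_alpha (t := -m) (k := -4) (al := 3 * c) (be := 1) (u := 6) (d := 72) (X := X) (Z := Z)
    (by norm_num) (by simpa using hm0) (by norm_num) (by ring)
    (by linear_combination 8 * hc - qm) ?_ ?_
    (by omega) (by omega) (by linarith)
    (by rw [abs_of_pos (by norm_num : (0 : ℤ) < 6)]; linarith)
    (by rw [abs_of_pos (by norm_num : (0 : ℤ) < 6), abs_of_pos (by norm_num : (0 : ℤ) < 72)]; linarith)
  · linear_combination hX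
  · linear_combination hZ

/-- `β ∣ a - 8 - 27 a⁶` -/
theorem dvd_38 {m be a : ℤ} (hbe : 4 * be = 27 ^ 4 * (108 - 4 * m) + (108 + 4 * m) ^ 6)
    (b27 : be % 27 = 7) (ha : 27 * a = 108 + be ^ 6 + 4 * m) : be ∣ a - 8 - 27 * a ^ 6 := by
  have hcop : IsCoprime be (27 ^ 6 : ℤ) := by
    have h3 : IsCoprime be (3 : ℤ) := ⟨1, -(be / 3), by omega⟩
    have := h3.pow_right (n := 18)
    norm_num at this ⊢
    exact this
  apply hcop.dvd_of_dvd_mul_left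
  have h1 : be ∣ (27 * a) ^ 6 - (108 + 4 * m) ^ 6 := by
    have : 27 * a - (108 + 4 * m) ∣ (27 * a) ^ 6 - (108 + 4 * m) ^ 6 := sub_dvd_pow_sub_pow _ _ 6
    refine dvd_trans ?_ this
    have e : 27 * a - (108 + 4 * m) = be ^ 6 := by linarith
    rw [e]
    exact dvd_pow_self be (by norm_num)
  have h2 : 27 ^ 6 * (a - 8 - 27 * a ^ 6) =
      -27 * ((27 * a) ^ 6 - (108 + 4 * m) ^ 6) + be * (27 ^ 5 * be ^ 5 - 108) := by
    linear_combination (27 ^ 5 : ℤ) * ha + 27 * hbe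
  rw [h2]
  exact dvd_add (dvd_mul_of_dvd_right h1 _) (dvd_mul_right _ _)

theorem size_38 {m be a : ℤ} (h : m % 54 = 38) (hbe : be = 531441 * (27 - m) + 1024 * (27 + m) ^ 6)
    (ha : 27 * a = 108 + be ^ 6 + 4 * m) : 1000 ≤ be ∧ be < 3 * a := by
  obtain ⟨y, hy⟩ : ∃ y, y = 27 + m := ⟨_, rfl⟩
  have hm : m = y - 27 := by linarith
  subst hm
  have hy1 : 11 ≤ |y| := le_abs.mpr (by omega)
  have hy2 : 121 ≤ y ^ 2 := by rw [← sq_abs]; nlinarith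
  have hyle : y ≤ y ^ 2 := by nlinarith
  have hyle' : -y ≤ y ^ 2 := by nlinarith
  have hy6 : 14641 * y ^ 2 ≤ y ^ 6 := by
    have e1 : y ^ 6 = y ^ 2 * (y ^ 2 * y ^ 2) := by ring
    have e2 : (14641 : ℤ) ≤ y ^ 2 * y ^ 2 := by nlinarith
    rw [e1]
    have := mul_le_mul_of_nonneg_left e2 (sq_nonneg y)
    linarith
  have hbe' : be = 531441 * (54 - y) + 1024 * y ^ 6 := by rw [hbe]; ring
  have hbbig : 14000000 * y ^ 2 ≤ be := by rw [hbe']; linarith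
  have hb1 : 1000 ≤ be := by linarith
  refine ⟨hb1, ?_⟩
  have e1 : be ^ 6 = be * be ^ 5 := by ring
  have e2 : (1000 : ℤ) ^ 5 ≤ be ^ 5 := pow_le_pow_left₀ (by norm_num) hb1 5
  have e3 : be * 1000 ^ 5 ≤ be ^ 6 := by
    rw [e1]
    exact mul_le_mul_of_nonneg_left e2 (by linarith)
  norm_num at e3
  linarith

theorem odd_mul_mod8 {b e : ℤ} (hb : b % 8 = 1 ∨ b % 8 = 3 ∨ b % 8 = 5 ∨ b % 8 = 7)
    (h : b * e % 8 = 4) : e % 8 = 4 := by
  have h1 : (b % 8) * (e % 8) % 8 = 4 := by rw [← Int.mul_emod]; exact h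
  have h2 : e % 8 = 0 ∨ e % 8 = 1 ∨ e % 8 = 2 ∨ e % 8 = 3 ∨ e % 8 = 4 ∨ e % 8 = 5 ∨ e % 8 = 6 ∨
      e % 8 = 7 := by omega
  rcases hb with hb | hb | hb | hb <;> rw [hb] at h1 <;>
    rcases h2 with h2 | h2 | h2 | h2 | h2 | h2 | h2 | h2 <;> rw [h2] at h1 <;>
    first
    | exact h2
    | (exfalso; norm_num at h1)

set_option maxHeartbeats 1000000 in
/-- `m ≡ 38 mod 54`: `t = 1`, `4 β = 9⁶ (108 - 4 m) + (108 + 4 m)⁶`, `9 α = 108 + β⁶ + 4 m` -/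
theorem good_38_54 {m : ℤ} (h : m % 54 = 38) : Good m := by
  obtain ⟨be, hbe⟩ : ∃ be : ℤ, be = 531441 * (27 - m) + 1024 * (27 + m) ^ 6 := ⟨_, rfl⟩
  -- residues of β
  have hy27 : (27 + m) % 27 = 11 := by omega
  have y6 : (27 + m) ^ 6 % 27 = 10 := pow_emod 6 hy27 (by norm_num)
  have b27 : be % 27 = 7 := by omega
  have b6 : be ^ 6 % 27 = 10 := pow_emod 6 b27 (by norm_num)
  have hb2 : be % 2 = 1 := by omega
  have hb8 : be % 8 = 1 ∨ be % 8 = 3 ∨ be % 8 = 5 ∨ be % 8 = 7 := by omega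
  have b68 : be ^ 6 % 8 = 1 := by
    rcases hb8 with h | h | h | h
    · exact pow_emod 6 h (by norm_num)
    · exact pow_emod 6 h (by norm_num)
    · exact pow_emod 6 h (by norm_num)
    · exact pow_emod 6 h (by norm_num)
  have b22 : be ^ 2 % 8 = 1 := by
    rcases hb8 with h | h | h | h
    · exact pow_emod 2 h (by norm_num)
    · exact pow_emod 2 h (by norm_num)
    · exact pow_emod 2 h (by norm_num)
    · exact pow_emod 2 h (by norm_num)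
  -- α = 3 a
  obtain ⟨a, ha⟩ : ∃ a : ℤ, 27 * a = 108 + be ^ 6 + 4 * m := ⟨(108 + be ^ 6 + 4 * m) / 27, by omega⟩
  have a8 : a % 8 = 7 := by omega
  have a5 : a ^ 5 % 8 = 7 := pow_emod 5 a8 (by norm_num)
  have a6 : a ^ 6 % 8 = 1 := pow_emod 6 a8 (by norm_num)
  have a2 : a ^ 2 % 8 = 1 := pow_emod 2 a8 (by norm_num)
  obtain ⟨hb1, hab⟩ := size_38 h hbe ha
  -- β divides E
  obtain ⟨e, he⟩ := dvd_38 (by rw [hbe]; ring) b27 ha
  have hE8 : (a - 8 - 27 * a ^ 6) % 8 = 4 := by omega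
  have he8 : e % 8 = 4 := odd_mul_mod8 hb8 (by rw [← he]; exact hE8)
  obtain ⟨f, hf⟩ : ∃ f, e = 4 * f := ⟨e / 4, by omega⟩
  obtain ⟨X, hX⟩ : ∃ X, 4 * X = 1 - 27 * a ^ 5 := ⟨(1 - 27 * a ^ 5) / 4, by omega⟩
  have h31 : 1000 ≤ 3 * a := by linarith
  have h32 : 1000 ≤ |3 * a| := le_abs.mpr (Or.inl h31)
  have h33 : be ^ 2 < (3 * a) ^ 2 := pow_lt_pow_left₀ hab (by linarith) (by norm_num)
  have h34 : (1000 : ℤ) ^ 2 ≤ (3 * a) ^ 2 := pow_le_pow_left₀ (by norm_num) h31 2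
  refine fam_alpha (t := 1) (k := 4 * m) (al := 3 * a) (be := be) (u := 6) (d := 9) (X := X)
    (Z := 3 * f) (by norm_num) (by norm_num) (by linarith) (by ring) (by linear_combination ha) ?_ ?_
    ?_ ?_ h33 (by rw [abs_of_pos (by norm_num : (0 : ℤ) < 6)]; linarith)
    (by rw [abs_of_pos (by norm_num : (0 : ℤ) < 6), abs_of_pos (by norm_num : (0 : ℤ) < 9)]; linarith)
  · linear_combination 9 * hX
  · rw [hf] at he
    linear_combination (-27) * he + ha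
  · have : (3 * a) ^ 2 * 1 = 9 * a ^ 2 := by ring
    rw [this]
    omega
  · omega

end Pool.Agent.FourCubes51
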