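import Pool.Agent.FourCubes51.Basic

namespace Pool.Agent.FourCubes51

theorem big_aux {t al be u d Z : ℤ} (ht : t ≠ 0) (hZ : 6 * u * Z = be ^ 5 * t ^ 2 - d)
    (h1 : al ^ 2 < be ^ 2) (h2 : 3 * |u| + 1 ≤ |be|) (h3 : 3 * |u| + |d| < be ^ 2) :
    ((al ^ 2 - be ^ 2) * t) ^ 2 + 1 < 2 * |Z| := by
  by_contra hcon
  have hcon' : 2 * |Z| ≤ ((al ^ 2 - be ^ 2) * t) ^ 2 + 1 := not_lt.mp hcon
  have hU : 0 ≤ |u| := abs_nonneg u
  have hB : 1 ≤ |be| := by linarith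
  have ht2 : 1 ≤ t ^ 2 := by
    have : 0 < t ^ 2 := by positivity
    linarith
  have hB2 : |be| ^ 2 = be ^ 2 := sq_abs be
  have hB4 : |be| ^ 4 = be ^ 4 := by
    calc |be| ^ 4 = (|be| ^ 2) ^ 2 := by ring
      _ = be ^ 4 := by rw [hB2]; ring
  have e1 : |6 * u * Z| = 6 * |u| * |Z| := by
    rw [abs_mul, abs_mul]; norm_num
  have e2 : |be| ^ 5 * t ^ 2 - |d| ≤ |be ^ 5 * t ^ 2 - d| := by
    have : |be ^ 5 * t ^ 2| = |be| ^ 5 * t ^ 2 := by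
      rw [abs_mul, abs_pow, abs_of_nonneg (by positivity : 0 ≤ t ^ 2)]
    rw [← this]
    exact abs_sub_abs_le_abs_sub _ _
  have e3 : |be| ^ 5 * t ^ 2 - |d| ≤ 6 * |u| * |Z| := by rw [← e1, hZ]; exact e2
  have e4 : ((al ^ 2 - be ^ 2) * t) ^ 2 ≤ be ^ 4 * t ^ 2 := by
    have h5 : (be ^ 2 - al ^ 2) ^ 2 ≤ (be ^ 2) ^ 2 := by
      apply pow_le_pow_left₀ (by linarith)
      have := sq_nonneg al
      linarith
    have h6 : (be ^ 2 - al ^ 2) ^ 2 * t ^ 2 ≤ (be ^ 2) ^ 2 * t ^ 2 :=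
      mul_le_mul_of_nonneg_right h5 (by linarith)
    calc ((al ^ 2 - be ^ 2) * t) ^ 2 = (be ^ 2 - al ^ 2) ^ 2 * t ^ 2 := by ring
      _ ≤ (be ^ 2) ^ 2 * t ^ 2 := h6
      _ = be ^ 4 * t ^ 2 := by ring
  have e5 : 6 * |u| * |Z| ≤ 3 * |u| * (be ^ 4 * t ^ 2 + 1) := by
    have : 2 * |Z| ≤ be ^ 4 * t ^ 2 + 1 := by linarith
    calc 6 * |u| * |Z| = 3 * |u| * (2 * |Z|) := by ring
      _ ≤ _ := mul_le_mul_of_nonneg_left this (by linarith)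
  have e6 : (|be| - 3 * |u|) * (be ^ 4 * t ^ 2) ≤ 3 * |u| + |d| := by
    have : |be| ^ 5 = |be| * be ^ 4 := by rw [← hB4]; ring
    rw [this] at e3
    nlinarith
  have hb2 : 1 ≤ be ^ 2 := by
    have : 0 ≤ |d| := abs_nonneg d
    linarith
  have e7 : be ^ 2 ≤ be ^ 4 * t ^ 2 := by
    calc be ^ 2 = be ^ 2 * 1 := by ring
      _ ≤ be ^ 2 * (be ^ 2 * t ^ 2) :=
        mul_le_mul_of_nonneg_left (by nlinarith) (by linarith)
      _ = _ := by ring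
  have e8 : be ^ 4 * t ^ 2 ≤ (|be| - 3 * |u|) * (be ^ 4 * t ^ 2) := by
    have : 0 ≤ be ^ 4 * t ^ 2 := by positivity
    nlinarith
  linarith

/-- the family where `β` is a divisor of `3 u² + α⁶ t² - k` with quotient `d` -/
theorem fam_beta {m t k al be u d X Z : ℤ} (hu : u ≠ 0) (ht : t ≠ 0) (hal : al ≠ 0)
    (hkt : k * t = 4 * m) (hd : be * d = 3 * u ^ 2 + al ^ 6 * t ^ 2 - k)
    (hX : 6 * u * al * X = 3 * u ^ 2 + (k - (al ^ 6 - be ^ 6) * t ^ 2))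
    (hZ : 6 * u * Z = be ^ 5 * t ^ 2 - d)
    (pX : (al ^ 2 * t - X) % 2 = 0) (pZ : (be ^ 2 * t - Z) % 2 = 0)
    (h1 : al ^ 2 < be ^ 2) (h2 : 3 * |u| + 1 ≤ |be|) (h3 : 3 * |u| + |d| < be ^ 2) : Good m := by
  have hbe : be ≠ 0 := by
    rintro rfl
    have := abs_nonneg u
    simp at h2
    linarith
  refine fam (X := X) (Z := Z) hu ht hal hbe hkt hX ?_ pX pZ h1.ne (Or.inr (big_aux ht hZ h1 h2 h3))
  linear_combination be * hZ - hd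

/-- the family where `α` is a divisor of `3 u² + β⁶ t² + k` with quotient `d` -/
theorem fam_alpha {m t k al be u d X Z : ℤ} (hu : u ≠ 0) (ht : t ≠ 0) (hbe : be ≠ 0)
    (hkt : k * t = 4 * m) (hd : al * d = 3 * u ^ 2 + be ^ 6 * t ^ 2 + k)
    (hX : 6 * u * X = d - al ^ 5 * t ^ 2)
    (hZ : 6 * u * be * Z = (k - (al ^ 6 - be ^ 6) * t ^ 2) - 3 * u ^ 2)
    (pX : (al ^ 2 * t - X) % 2 = 0) (pZ : (be ^ 2 * t - Z) % 2 = 0)
    (h1 : be ^ 2 < al ^ 2) (h2 : 3 * |u| + 1 ≤ |al|) (h3 : 3 * |u| + |d| < al ^ 2) : Good m := by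
  have hal : al ≠ 0 := by
    rintro rfl
    have := abs_nonneg u
    simp at h2
    linarith
  have hX' : 6 * u * (-X) = al ^ 5 * t ^ 2 - d := by linear_combination -hX
  have hb := big_aux ht hX' h1 h2 h3
  rw [abs_neg] at hb
  refine fam (X := X) (Z := Z) hu ht hal hbe hkt ?_ hZ pX pZ h1.ne' (Or.inl ?_)
  · linear_combination al * hX + hd
  · have : ((al ^ 2 - be ^ 2) * t) ^ 2 = ((be ^ 2 - al ^ 2) * t) ^ 2 := by ring
    rw [this]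
    exact hb

theorem pow_emod {b r n s : ℤ} (k : ℕ) (h : b % n = r) (hs : r ^ k % n = s) : b ^ k % n = s := by
  rw [← hs, ← h]
  exact (Int.emod_emod_of_dvd _ (dvd_refl n)).symm.trans (by
    rw [Int.emod_emod_of_dvd _ (dvd_refl n)]
    exact (Int.ModEq.pow k (Int.mod_modEq b n).symm))

end Pool.Agent.FourCubes51
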