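import Pool.Agent.FourCubes51.Nine

set_option autoImplicit false

/-!
# The classes `±4 mod 9` (variant kept outside the hand-ins)
-/

namespace Pool.Agent.FourCubes51

/-- For `m` congruent to `4` or `5` modulo `9`, the set of representations is infinite if and only if
it contains a quadruple `(x, y, z, w)` with `(x + y) (z + w) < 0` and (`x ≠ y` or `z ≠ w`). -/
theorem mixed_criterion (m : ℤ) (hm : m % 9 = 4 ∨ m % 9 = 5) :
    ({q : ℤ × ℤ × ℤ × ℤ | q.1 ^ 3 + q.2.1 ^ 3 + q.2.2.1 ^ 3 + q.2.2.2 ^ 3 = m}.Infinite ↔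
      ∃ x y z w : ℤ, x ^ 3 + y ^ 3 + z ^ 3 + w ^ 3 = m ∧ (x + y) * (z + w) < 0 ∧
        (x ≠ y ∨ z ≠ w)) := by
  refine ⟨fun h => ?_, ?_⟩
  · obtain ⟨x, y, z, w, h1, h2, h3⟩ := mixed_of_infinite hm h
    exact ⟨x, y, z, w, h1, h2, h3⟩
  · rintro ⟨x, y, z, w, h1, h2, h3⟩
    exact infinite_of_mixed hm h1 h2 h3

end Pool.Agent.FourCubes51
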