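import Pool.Agent.FourCubes51.Classes
import Pool.Agent.FourCubes51.Classes2

/-!
# All residue classes, and the classes `±4 mod 9`
-/

namespace Pool.Agent.FourCubes51

theorem good_half {m : ℤ} (h : m % 9 = 0 ∨ m % 9 = 3 ∨ m % 9 = 6 ∨ m % 9 = 8 ∨ m % 9 = 2) :
    Good m := by
  have h' : m % 6 = 0 ∨ m % 6 = 3 ∨ m % 18 = 8 ∨ m % 18 = 17 ∨ m % 54 = 20 ∨ m % 54 = 47 ∨
      m % 54 = 11 ∨ m % 54 = 38 ∨ m % 54 = 29 ∨ m % 108 = 2 ∨ m % 108 = 56 := by omega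
  rcases h' with h | h | h | h | h | h | h | h | h | h | h
  · exact good_0_6 h
  · exact good_3_6 h
  · exact good_8_18 h
  · exact good_17_18 h
  · exact good_20_54 h
  · exact good_47_54 h
  · exact good_11_54 h
  · exact good_38_54 h
  · exact good_29_54 h
  · exact good_2_108 h
  · exact good_56_108 h

theorem good_all {m : ℤ} (h : ¬ (m % 9 = 4 ∨ m % 9 = 5)) : Good m := by
  by_cases h1 : m % 9 = 0 ∨ m % 9 = 3 ∨ m % 9 = 6 ∨ m % 9 = 8 ∨ m % 9 = 2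
  · exact good_half h1
  · have h2 : (-m) % 9 = 8 ∨ (-m) % 9 = 2 := by omega
    have := good_half (m := -m) (by omega)
    have h3 := this.neg
    rwa [neg_neg] at h3

theorem cube_emod (x : ℤ) : (x % 3 = 0 ∧ x ^ 3 % 9 = 0) ∨ (x % 3 = 1 ∧ x ^ 3 % 9 = 1) ∨
    (x % 3 = 2 ∧ x ^ 3 % 9 = 8) := by
  have h : x % 9 = 0 ∨ x % 9 = 1 ∨ x % 9 = 2 ∨ x % 9 = 3 ∨ x % 9 = 4 ∨ x % 9 = 5 ∨ x % 9 = 6 ∨
      x % 9 = 7 ∨ x % 9 = 8 := by omega
  rcases h with h | h | h | h | h | h | h | h | h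
  · left; exact ⟨by omega, pow_emod 3 h (by norm_num)⟩
  · right; left; exact ⟨by omega, pow_emod 3 h (by norm_num)⟩
  · right; right; exact ⟨by omega, pow_emod 3 h (by norm_num)⟩
  · left; exact ⟨by omega, pow_emod 3 h (by norm_num)⟩
  · right; left; exact ⟨by omega, pow_emod 3 h (by norm_num)⟩
  · right; right; exact ⟨by omega, pow_emod 3 h (by norm_num)⟩
  · left; exact ⟨by omega, pow_emod 3 h (by norm_num)⟩
  · right; left; exact ⟨by omega, pow_emod 3 h (by norm_num)⟩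
  · right; right; exact ⟨by omega, pow_emod 3 h (by norm_num)⟩

/-- for `m ≡ ±4 mod 9` the product of the two pair sums is `1 mod 3` -/
theorem prod_mod3 {m x y z w : ℤ} (hm : m % 9 = 4 ∨ m % 9 = 5)
    (h : x ^ 3 + y ^ 3 + z ^ 3 + w ^ 3 = m) : (x + y) * (z + w) % 3 = 1 := by
  have key : (x % 3 = 1 ∧ y % 3 = 1 ∧ z % 3 = 1 ∧ w % 3 = 1) ∨
      (x % 3 = 2 ∧ y % 3 = 2 ∧ z % 3 = 2 ∧ w % 3 = 2) := by
    have hx := cube_emod x
    have hy := cube_emod y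
    have hz := cube_emod z
    have hw := cube_emod w
    generalize x ^ 3 = X at *
    generalize y ^ 3 = Y at *
    generalize z ^ 3 = Z at *
    generalize w ^ 3 = W at *
    omega
  rcases key with ⟨a, b, c, d⟩ | ⟨a, b, c, d⟩
  · rw [Int.mul_emod, show (x + y) % 3 = 2 by omega, show (z + w) % 3 = 2 by omega]; norm_num
  · rw [Int.mul_emod, show (x + y) % 3 = 1 by omega, show (z + w) % 3 = 1 by omega]; norm_num

theorem not_sq_mod3 {n : ℤ} (h : n % 3 = 2) : ¬ IsSquare n := by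
  rintro ⟨r, rfl⟩
  have h' : r % 3 = 0 ∨ r % 3 = 1 ∨ r % 3 = 2 := by omega
  rw [Int.mul_emod] at h
  rcases h' with h' | h' | h' <;> rw [h'] at h <;> norm_num at h

/-- a non-degenerate mixed solution is good when `m ≡ ±4 mod 9` -/
theorem infinite_of_mixed {m x y z w : ℤ} (hm : m % 9 = 4 ∨ m % 9 = 5)
    (h : x ^ 3 + y ^ 3 + z ^ 3 + w ^ 3 = m) (hneg : (x + y) * (z + w) < 0)
    (hne : x ≠ y ∨ z ≠ w) : (Sol m).Infinite := by
  have hp := prod_mod3 hm h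
  exact Good.infinite ⟨x, y, z, w, h, by linarith, not_sq_mod3 (by omega), hne⟩

theorem bound_aux {A C X Z m : ℤ} (h : A ^ 3 + 3 * A * X ^ 2 + (C ^ 3 + 3 * C * Z ^ 2) = 4 * m)
    (hA : 0 < A) (hC : 0 < C) : A ^ 2 + X ^ 2 ≤ 4 * |m| ∧ C ^ 2 + Z ^ 2 ≤ 4 * |m| := by
  have hX := sq_nonneg X
  have hZ := sq_nonneg Z
  have hA2 := sq_nonneg A
  have hC2 := sq_nonneg C
  have e1 : A ^ 2 + 3 * X ^ 2 ≤ A ^ 3 + 3 * A * X ^ 2 := by nlinarith
  have e2 : C ^ 2 + 3 * Z ^ 2 ≤ C ^ 3 + 3 * C * Z ^ 2 := by nlinarith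
  have := le_abs_self m
  constructor <;> linarith

theorem bound_sol {m x y z w : ℤ} (hm : m % 9 = 4 ∨ m % 9 = 5)
    (h : x ^ 3 + y ^ 3 + z ^ 3 + w ^ 3 = m)
    (hno : ¬ ((x + y) * (z + w) < 0 ∧ (x ≠ y ∨ z ≠ w))) :
    x ^ 2 ≤ 4 * |m| ∧ y ^ 2 ≤ 4 * |m| ∧ z ^ 2 ≤ 4 * |m| ∧ w ^ 2 ≤ 4 * |m| := by
  have hp := prod_mod3 hm h
  rcases lt_trichotomy ((x + y) * (z + w)) 0 with hlt | heq | hgt
  · -- degenerate
    have hx : x = y := by
      by_contra h'; exact hno ⟨hlt, Or.inl h'⟩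
    have hz : z = w := by
      by_contra h'; exact hno ⟨hlt, Or.inr h'⟩
    subst hx hz
    have h3 := prod_mod3 (x := x) (y := z) (z := x) (w := z) hm (by rw [← h]; ring)
    have hne : x + z ≠ 0 := by
      intro h0; rw [h0] at h3; norm_num at h3
    have h1 : 1 ≤ |x + z| := Int.one_le_abs hne
    have hq : 0 ≤ x ^ 2 - x * z + z ^ 2 := by nlinarith [sq_nonneg (x - z), sq_nonneg (x + z)]
    have h4 : |m| = 2 * (|x + z| * (x ^ 2 - x * z + z ^ 2)) := by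
      have : m = 2 * ((x + z) * (x ^ 2 - x * z + z ^ 2)) := by rw [← h]; ring
      rw [this, abs_mul, abs_mul, abs_of_nonneg hq]
      norm_num
    have h5 : 2 * (x ^ 2 - x * z + z ^ 2) ≤ |m| := by rw [h4]; nlinarith
    have h6 : x ^ 2 + z ^ 2 ≤ |m| := by nlinarith [sq_nonneg (x - z)]
    have hx2 := sq_nonneg x
    have hz2 := sq_nonneg z
    refine ⟨?_, ?_, ?_, ?_⟩ <;> linarith
  · rw [heq] at hp; norm_num at hp
  · have id2 : (x + y) ^ 3 + 3 * (x + y) * (x - y) ^ 2 + ((z + w) ^ 3 + 3 * (z + w) * (z - w) ^ 2) =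
        4 * m := by rw [← h]; ring
    have hb : (x + y) ^ 2 + (x - y) ^ 2 ≤ 4 * |m| ∧ (z + w) ^ 2 + (z - w) ^ 2 ≤ 4 * |m| := by
      rcases lt_or_gt_of_ne (show x + y ≠ 0 by rintro h0; rw [h0] at hgt; simp at hgt) with hA | hA
      · have hC : z + w < 0 := by
          by_contra hcon
          have : (x + y) * (z + w) ≤ 0 := mul_nonpos_of_nonpos_of_nonneg hA.le (not_lt.mp hcon)
          linarith
        have := bound_aux (A := -(x + y)) (C := -(z + w)) (X := x - y) (Z := z - w) (m := -m)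
          (by linear_combination -id2) (by linarith) (by linarith)
        rw [abs_neg, neg_sq, neg_sq] at this
        exact this
      · have hC : 0 < z + w := by
          by_contra hcon
          have : (x + y) * (z + w) ≤ 0 := mul_nonpos_of_nonneg_of_nonpos hA.le (not_lt.mp hcon)
          linarith
        exact bound_aux id2 hA hC
    have hx2 := sq_nonneg x
    have hy2 := sq_nonneg y
    have hz2 := sq_nonneg z
    have hw2 := sq_nonneg w
    refine ⟨?_, ?_, ?_, ?_⟩ <;> nlinarith [hb.1, hb.2]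

theorem mixed_of_infinite {m : ℤ} (hm : m % 9 = 4 ∨ m % 9 = 5) (hinf : (Sol m).Infinite) :
    ∃ x y z w : ℤ, x ^ 3 + y ^ 3 + z ^ 3 + w ^ 3 = m ∧ (x + y) * (z + w) < 0 ∧ (x ≠ y ∨ z ≠ w) := by
  by_contra hcon
  apply hinf
  have hI : (Set.Icc (-(4 * |m|)) (4 * |m|)).Finite := Set.finite_Icc _ _
  refine (hI.prod (hI.prod (hI.prod hI))).subset ?_
  rintro ⟨x, y, z, w⟩ hq
  have h : x ^ 3 + y ^ 3 + z ^ 3 + w ^ 3 = m := hq
  have hno : ¬ ((x + y) * (z + w) < 0 ∧ (x ≠ y ∨ z ≠ w)) := fun h' => hcon ⟨x, y, z, w, h, h'⟩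
  obtain ⟨bx, b_y, bz, bw⟩ := bound_sol hm h hno
  have key : ∀ t : ℤ, t ^ 2 ≤ 4 * |m| → t ∈ Set.Icc (-(4 * |m|)) (4 * |m|) := by
    intro t ht
    have e1 : t ≤ t ^ 2 := by
      rcases le_or_gt t 0 with h0 | h0
      · nlinarith [sq_nonneg t]
      · nlinarith
    have e2 : -t ≤ t ^ 2 := by
      rcases le_or_gt 0 t with h0 | h0
      · nlinarith [sq_nonneg t]
      · nlinarith
    exact ⟨by linarith, by linarith⟩
  exact ⟨key x bx, key y b_y, key z bz, key w bw⟩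

end Pool.Agent.FourCubes51
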